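import Mathlib

set_option autoImplicit false

namespace Pool.Agent.FS.EveryN

def mx : List (ℕ × ℕ) → ℕ
  | [] => 0
  | x :: t => max x.1 x.2 + mx t

def feas : List (ℕ × ℕ) → ℕ → ℕ → ℕ → ℕ → Bool
  | [], s0, s1, s2, s3 => decide (s0 + s1 + s2 + s3 = 0)
  | x :: t, s0, s1, s2, s3 => decide (s0 + s1 + s2 + s3 ≤ max x.1 x.2 + mx t) &&
      (feas t (s0 - x.2) s1 s2 s3 || feas t s0 (s1 - x.2) s2 s3 ||
        feas t s0 s1 (s2 - x.1) s3 || feas t s0 s1 s2 (s3 - x.1))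

def ta (j : Fin 4) : List ((ℕ × ℕ) × Fin 4) → ℕ
  | [] => 0
  | x :: t => (if x.2 = j then x.1.1 else 0) + ta j t

def tb (j : Fin 4) : List ((ℕ × ℕ) × Fin 4) → ℕ
  | [] => 0
  | x :: t => (if x.2 = j then x.1.2 else 0) + tb j t

theorem tot_le (l : List ((ℕ × ℕ) × Fin 4)) :
    tb 0 l + tb 1 l + ta 2 l + ta 3 l ≤ mx (l.map Prod.fst) := by
  induction l with
  | nil => simp [ta, tb, mx]
  | cons x t ih =>
    obtain ⟨⟨a, b⟩, j⟩ := x
    have h1 := le_max_left a b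
    have h2 := le_max_right a b
    fin_cases j <;> simp [ta, tb, mx] at ih ⊢ <;> omega

theorem feas_of (l : List ((ℕ × ℕ) × Fin 4)) : ∀ s0 s1 s2 s3 : ℕ, s0 ≤ tb 0 l → s1 ≤ tb 1 l →
    s2 ≤ ta 2 l → s3 ≤ ta 3 l → feas (l.map Prod.fst) s0 s1 s2 s3 = true := by
  induction l with
  | nil =>
    intro s0 s1 s2 s3 h0 h1 h2 h3
    simp [ta, tb] at h0 h1 h2 h3
    simp [feas, h0, h1, h2, h3]
  | cons x t ih =>
    intro s0 s1 s2 s3 h0 h1 h2 h3
    have ht := tot_le (x :: t)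
    have hs : s0 + s1 + s2 + s3 ≤ max x.1.1 x.1.2 + mx (t.map Prod.fst) := by
      have : mx ((x :: t).map Prod.fst) = max x.1.1 x.1.2 + mx (t.map Prod.fst) := rfl
      omega
    obtain ⟨⟨a, b⟩, j⟩ := x
    simp only [List.map_cons, feas, Bool.and_eq_true, Bool.or_eq_true, decide_eq_true_eq]
    refine ⟨hs, ?_⟩
    fin_cases j <;> simp [ta, tb] at h0 h1 h2 h3
    · exact Or.inl (Or.inl (Or.inl (ih _ _ _ _ (by omega) h1 h2 h3)))
    · exact Or.inl (Or.inl (Or.inr (ih _ _ _ _ h0 (by omega) h2 h3)))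
    · exact Or.inl (Or.inr (ih _ _ _ _ h0 h1 (by omega) h3))
    · exact Or.inr (ih _ _ _ _ h0 h1 h2 (by omega))

def av (g : ℕ) : ℕ := [18, 17, 10, 10, 7, 7, 7, 3, 3, 1, 1].getD g 100
def bv (g : ℕ) : ℕ := [19, 14, 10, 9, 7, 7, 6, 5, 5, 1, 1].getD g 0

theorem nofeas : feas [(18, 19), (17, 14), (10, 10), (10, 9), (7, 7), (7, 7), (7, 6), (3, 5), (3, 5),
    (1, 1), (1, 1)] 21 21 21 21 = false := by decide +kernel

theorem core (f : Fin 11 → Fin 4)
    (h0 : 21 ≤ ∑ c : Fin 11, if f c = 0 then bv c else 0)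
    (h1 : 21 ≤ ∑ c : Fin 11, if f c = 1 then bv c else 0)
    (h2 : 21 ≤ ∑ c : Fin 11, if f c = 2 then av c else 0)
    (h3 : 21 ≤ ∑ c : Fin 11, if f c = 3 then av c else 0) : False := by
  have h := feas_of [((18, 19), f 0), ((17, 14), f 1), ((10, 10), f 2), ((10, 9), f 3),
    ((7, 7), f 4), ((7, 7), f 5), ((7, 6), f 6), ((3, 5), f 7), ((3, 5), f 8),
    ((1, 1), f 9), ((1, 1), f 10)] 21 21 21 21
    (by simp only [Fin.sum_univ_succ, Fin.sum_univ_zero] at h0; exact h0)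
    (by simp only [Fin.sum_univ_succ, Fin.sum_univ_zero] at h1; exact h1)
    (by simp only [Fin.sum_univ_succ, Fin.sum_univ_zero] at h2; exact h2)
    (by simp only [Fin.sum_univ_succ, Fin.sum_univ_zero] at h3; exact h3)
  have h' := nofeas
  simp only [List.map_cons, List.map_nil] at h
  rw [h'] at h
  exact Bool.false_ne_true h

end Pool.Agent.FS.EveryN
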