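import Pool.Agent.FS.EveryN.Core

set_option autoImplicit false

namespace Pool.Agent.FS.EveryN.F5

def mx : List (ℕ × ℕ) → ℕ
  | [] => 0
  | x :: t => max x.1 x.2 + mx t

def feas (ok : List (Fin 5) → Bool) : List (ℕ × ℕ) → List (Fin 5) → ℕ → ℕ → ℕ → ℕ → Bool
  | [], acc, s0, s1, s2, s3 => decide (s0 + s1 + s2 + s3 = 0) && ok acc
  | x :: t, acc, s0, s1, s2, s3 => decide (s0 + s1 + s2 + s3 ≤ max x.1 x.2 + mx t) &&
      (feas ok t (acc ++ [0]) (s0 - x.2) s1 s2 s3 || feas ok t (acc ++ [1]) s0 (s1 - x.2) s2 s3 ||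
        feas ok t (acc ++ [2]) s0 s1 (s2 - x.1) s3 || feas ok t (acc ++ [3]) s0 s1 s2 (s3 - x.1) ||
        feas ok t (acc ++ [4]) s0 s1 s2 s3)

def ta (j : Fin 5) : List ((ℕ × ℕ) × Fin 5) → ℕ
  | [] => 0
  | x :: t => (if x.2 = j then x.1.1 else 0) + ta j t

def tb (j : Fin 5) : List ((ℕ × ℕ) × Fin 5) → ℕ
  | [] => 0
  | x :: t => (if x.2 = j then x.1.2 else 0) + tb j t

theorem tot_le (l : List ((ℕ × ℕ) × Fin 5)) :
    tb 0 l + tb 1 l + ta 2 l + ta 3 l ≤ mx (l.map Prod.fst) := by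
  induction l with
  | nil => simp [ta, tb, mx]
  | cons x t ih =>
    obtain ⟨⟨a, b⟩, j⟩ := x
    have h1 := le_max_left a b
    have h2 := le_max_right a b
    fin_cases j <;> simp [ta, tb, mx] at ih ⊢ <;> omega

theorem feas_of (ok : List (Fin 5) → Bool) (l : List ((ℕ × ℕ) × Fin 5)) :
    ∀ (acc : List (Fin 5)) (s0 s1 s2 s3 : ℕ), s0 ≤ tb 0 l → s1 ≤ tb 1 l →
    s2 ≤ ta 2 l → s3 ≤ ta 3 l → ok (acc ++ l.map Prod.snd) = true →
    feas ok (l.map Prod.fst) acc s0 s1 s2 s3 = true := by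
  induction l with
  | nil =>
    intro acc s0 s1 s2 s3 h0 h1 h2 h3 hk
    simp [ta, tb] at h0 h1 h2 h3 hk
    simp [feas, h0, h1, h2, h3, hk]
  | cons x t ih =>
    intro acc s0 s1 s2 s3 h0 h1 h2 h3 hk
    have ht := tot_le (x :: t)
    have hs : s0 + s1 + s2 + s3 ≤ max x.1.1 x.1.2 + mx (t.map Prod.fst) := by
      have : mx ((x :: t).map Prod.fst) = max x.1.1 x.1.2 + mx (t.map Prod.fst) := rfl
      omega
    obtain ⟨⟨a, b⟩, j⟩ := x
    have hk' : ok ((acc ++ [j]) ++ t.map Prod.snd) = true := by simpa using hk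
    simp only [List.map_cons, feas, Bool.and_eq_true, Bool.or_eq_true, decide_eq_true_eq]
    refine ⟨hs, ?_⟩
    fin_cases j <;> simp [ta, tb] at h0 h1 h2 h3
    · exact Or.inl (Or.inl (Or.inl (Or.inl (ih _ _ _ _ _ (by omega) h1 h2 h3 hk'))))
    · exact Or.inl (Or.inl (Or.inl (Or.inr (ih _ _ _ _ _ h0 (by omega) h2 h3 hk'))))
    · exact Or.inl (Or.inl (Or.inr (ih _ _ _ _ _ h0 h1 (by omega) h3 hk')))
    · exact Or.inl (Or.inr (ih _ _ _ _ _ h0 h1 h2 (by omega) hk'))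
    · exact Or.inr (ih _ _ _ _ _ h0 h1 h2 h3 hk')

def P1 : Fin 11 → Fin 2 := ![0, 1, 0, 0, 1, 0, 0, 0, 0, 0, 0]
def P2 : Fin 11 → Fin 2 := ![0, 0, 1, 0, 1, 0, 0, 1, 0, 0, 0]
def P3 : Fin 11 → Fin 2 := ![0, 0, 1, 0, 0, 0, 1, 1, 0, 0, 0]

def own (u : ℕ → ℕ) (f : Fin 11 → Fin 5) (i : Fin 5) : ℕ := ∑ c : Fin 11, if f c = i then u c else 0

def cut (u : ℕ → ℕ) (f : Fin 11 → Fin 5) (i j : Fin 5) (P : Fin 11 → Fin 2) (c0 : ℕ) : Prop :=
  (∀ t, c0 ≤ ∑ c : Fin 11, if (f c = i ∨ f c = j) ∧ P c = t then u c else 0) →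
    20 * c0 < 21 * own u f i

instance (u : ℕ → ℕ) (f : Fin 11 → Fin 5) (i j : Fin 5) (P : Fin 11 → Fin 2) (c0 : ℕ) :
    Decidable (cut u f i j P c0) := by unfold cut; infer_instance

def Cons (f : Fin 11 → Fin 5) : Prop :=
  cut av f 2 3 P1 24 ∧ cut av f 3 2 P1 24 ∧
  cut bv f 0 2 P2 21 ∧ cut bv f 0 3 P2 21 ∧ cut bv f 1 2 P2 21 ∧ cut bv f 1 3 P2 21 ∧
  cut bv f 0 2 P3 21 ∧ cut bv f 0 3 P3 21 ∧ cut bv f 1 2 P3 21 ∧ cut bv f 1 3 P3 21

instance (f : Fin 11 → Fin 5) : Decidable (Cons f) := by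
  unfold Cons; infer_instance

def okk (l : List (Fin 5)) : Bool :=
  decide (l.getD 9 0 = 4 ∨ l.getD 10 0 = 4) && decide (Cons fun c => l.getD c 0)

theorem nofeas : feas okk [(18, 19), (17, 14), (10, 10), (10, 9), (7, 7), (7, 7), (7, 6), (3, 5),
    (3, 5), (1, 1), (1, 1)] [] 20 20 21 21 = false := by decide +kernel

theorem core (f : Fin 11 → Fin 5) (h9 : f 9 = 4 ∨ f 10 = 4) (h0 : 20 ≤ own bv f 0) (h1 : 20 ≤ own bv f 1)
    (h2 : 21 ≤ own av f 2) (h3 : 21 ≤ own av f 3) (hc : Cons f) : False := by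
  unfold own at h0 h1 h2 h3
  have e : (fun c : Fin 11 => [f 0, f 1, f 2, f 3, f 4, f 5, f 6, f 7, f 8, f 9, f 10].getD c 0)
      = f := by
    funext c
    fin_cases c <;> rfl
  have h := feas_of okk [((18, 19), f 0), ((17, 14), f 1), ((10, 10), f 2), ((10, 9), f 3),
    ((7, 7), f 4), ((7, 7), f 5), ((7, 6), f 6), ((3, 5), f 7), ((3, 5), f 8),
    ((1, 1), f 9), ((1, 1), f 10)] [] 20 20 21 21
    (by simp only [Fin.sum_univ_succ, Fin.sum_univ_zero] at h0; exact h0)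
    (by simp only [Fin.sum_univ_succ, Fin.sum_univ_zero] at h1; exact h1)
    (by simp only [Fin.sum_univ_succ, Fin.sum_univ_zero] at h2; exact h2)
    (by simp only [Fin.sum_univ_succ, Fin.sum_univ_zero] at h3; exact h3)
    (by
      simp only [List.map_cons, List.map_nil, List.nil_append, okk, decide_eq_true_eq,
        Bool.and_eq_true]
      rw [e]
      exact ⟨h9, hc⟩)
  have h' := nofeas
  simp only [List.map_cons, List.map_nil] at h
  rw [h'] at h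
  exact Bool.false_ne_true h

end Pool.Agent.FS.EveryN.F5
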