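import Pool.Agent.Lib.MP_7939ee_co.Defs

set_option autoImplicit false

namespace Pool.Agent.FS.EveryN

open Finset Pool.Agent.Lib.MP_7939ee_co

theorem le_gmms {n m : ℕ} (v : Fin n → Fin m → ℝ) (A : Fin m → Fin n) (i : Fin n)
    (S : Finset (Fin n)) (hi : i ∈ S) (k : ℕ) (hk : S.card = k) (B : Fin m → Fin k) (c : ℝ)
    (h : ∀ j, c ≤ ∑ g, if A g ∈ S ∧ B g = j then v i g else 0) : c ≤ gmms v A i := by
  subst hk
  have hne : Nonempty (Fin S.card) := ⟨⟨0, card_pos.2 ⟨i, hi⟩⟩⟩
  unfold gmms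
  refine le_ciSup_of_le (Finite.bddAbove_range _) ⟨S, hi⟩ ?_
  unfold mms
  refine le_ciSup_of_le (Finite.bddAbove_range _) B ?_
  refine le_ciInf fun j => (h j).trans (le_of_eq ?_)
  rw [← sum_filter]
  refine sum_congr ?_ fun _ _ => rfl
  ext g
  simp [bundle]

/-- natural-number form -/
theorem key {n m : ℕ} (w : Fin n → Fin m → ℕ) (A : Fin m → Fin n) (α : ℝ) (p q : ℕ) (hq : 0 < q)
    (hα : (p : ℝ) / q < α) (hA : IsGMMS α (fun i g => (w i g : ℝ)) A) (i : Fin n)
    (S : Finset (Fin n)) (hi : i ∈ S) (k : ℕ) (hk : S.card = k) (B : Fin m → Fin k) (c : ℕ)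
    (hc : 0 < c) (h : ∀ j, c ≤ ∑ g, if A g ∈ S ∧ B g = j then w i g else 0) :
    p * c < q * ∑ g, if A g = i then w i g else 0 := by
  have h1 := le_gmms (fun i g => (w i g : ℝ)) A i S hi k hk B c fun j => by
    have := h j
    have h2 : ((c : ℕ) : ℝ) ≤ ((∑ g, if A g ∈ S ∧ B g = j then w i g else 0 : ℕ) : ℝ) := by
      exact_mod_cast this
    simpa using h2
  have h2 := hA i
  have h3 : ∑ g ∈ bundle A i, (w i g : ℝ) = ((∑ g, if A g = i then w i g else 0 : ℕ) : ℝ) := by
    simp [bundle, sum_filter]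
  simp only at h2
  rw [h3] at h2
  have hq' : (0 : ℝ) < q := by exact_mod_cast hq
  have hc' : (0 : ℝ) < c := by exact_mod_cast hc
  have hp : (0 : ℝ) ≤ p / q := by positivity
  have h4 : (p : ℝ) / q * c < α * c := mul_lt_mul_of_pos_right hα hc'
  have h5 : α * c ≤ α * gmms (fun i g => (w i g : ℝ)) A i :=
    mul_le_mul_of_nonneg_left h1 (by linarith)
  have h6 : (p : ℝ) * c < q * ((∑ g, if A g = i then w i g else 0 : ℕ) : ℝ) := by
    have := (h4.trans_le h5).trans_le h2
    rw [div_mul_eq_mul_div, div_lt_iff₀ hq'] at this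
    linarith
  exact_mod_cast h6

/-- pair form: cut one good `h` off -/
theorem pair {n m : ℕ} (w : Fin n → Fin m → ℕ) (A : Fin m → Fin n) (α : ℝ) (p q : ℕ) (hq : 0 < q)
    (hα : (p : ℝ) / q < α) (hA : IsGMMS α (fun i g => (w i g : ℝ)) A) (i : Fin n)
    (h g : Fin m) (hg : g ≠ h) (hAg : A g = A h) (hi : A h ≠ i) (c : ℕ) (hc : 0 < c)
    (h1 : c ≤ w i h) (h2 : c ≤ w i g + ∑ g, if A g = i then w i g else 0) :
    p * c < q * ∑ g, if A g = i then w i g else 0 := by
  refine key w A α p q hq hα hA i {i, A h} (by simp) 2 (card_pair hi.symm)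
    (fun x => if x = h then 0 else 1) c hc fun j => ?_
  fin_cases j
  · refine h1.trans ?_
    refine le_trans (le_of_eq ?_) (single_le_sum (f := fun g => if A g ∈ ({i, A h} : Finset _) ∧
      (if g = h then (0 : Fin 2) else 1) = 0 then w i g else 0) (fun _ _ => Nat.zero_le _)
      (mem_univ h))
    simp
  · refine h2.trans ?_
    have e : w i g = ∑ x, if x = g then w i x else 0 := by simp
    rw [e, ← sum_add_distrib]
    refine sum_le_sum fun x _ => ?_
    by_cases hx : x = g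
    · subst hx
      simp [hAg, hi, hg]
    · by_cases hxi : A x = i
      · have : x ≠ h := fun e => hi (e ▸ hxi)
        simp [hx, hxi, this]
      · simp [hx, hxi]

end Pool.Agent.FS.EveryN
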