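import Pool.Agent.FS.EveryN.Core5
import Pool.Agent.FS.EveryN.Gen

set_option autoImplicit false

namespace Pool.Agent.FS.EveryN

open Finset Pool.Agent.Lib.MP_7939ee_co

def W (K : ℕ) (i : Fin (4 + K)) (g : Fin (11 + K)) : ℕ := if i.val < 2 then bv g else av g

def pA : Fin 11 → Fin 4 := ![0, 1, 2, 2, 3, 3, 3, 0, 1, 1, 2]
def pB : Fin 11 → Fin 4 := ![0, 1, 2, 3, 1, 3, 2, 2, 3, 0, 0]

theorem av_pos (g : ℕ) : 1 ≤ av g := by
  unfold av
  by_cases h : g < 11
  · interval_cases g <;> simp
  · rw [List.getD_eq_default _ _ (by simp; omega)]; omega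

theorem av_big (g : ℕ) (h : 11 ≤ g) : av g = 100 := by
  unfold av
  rw [List.getD_eq_default _ _ (by simp; omega)]

theorem bv_big (g : ℕ) (h : 11 ≤ g) : bv g = 0 := by
  unfold bv
  rw [List.getD_eq_default _ _ (by simp; omega)]

theorem bv_pos (c : Fin 11) : 1 ≤ bv c := by fin_cases c <;> simp [bv]

theorem pA_ok : ∀ j, 21 ≤ ∑ c : Fin 11, if pA c = j then av c else 0 := by decide
theorem pB_ok : ∀ j, 21 ≤ ∑ c : Fin 11, if pB c = j then bv c else 0 := by decide
theorem av_tot : ∑ c : Fin 11, av c = 84 := by decide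

theorem av3 : ∀ c : Fin 11, c.val < 9 → 3 ≤ av c ∧ 5 ≤ bv c := by decide
theorem bv2 : ∑ c : Fin 11, (if c.val < 9 then 0 else bv c) = 2 := by decide
theorem mx_tot : ∑ c : Fin 11, max (av c) (bv c) = 89 := by decide
theorem pB9 : ∀ j, 20 ≤ ∑ c : Fin 11, if c ≠ 9 ∧ pB c = j then bv c else 0 := by decide
theorem pB10 : ∀ j, 20 ≤ ∑ c : Fin 11, if c ≠ 10 ∧ pB c = j then bv c else 0 := by decide
theorem pB19 : ∀ j, 19 ≤ ∑ c : Fin 11, if c.val < 9 ∧ pB c = j then bv c else 0 := by decide
theorem pB21 : ∀ j, 21 ≤ ∑ c : Fin 11, if True ∧ pB c = j then bv c else 0 := by decide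
theorem two : ∑ c : Fin 11, (if c.val < 9 then 0 else av c) = 2 := by decide
theorem c3 : ∀ c : Fin 11, c.val < 9 ∨ c = 9 ∨ c = 10 := by decide

theorem labs {ι : Type} [DecidableEq ι] (z0 z1 a b x : ι) (hz : z0 ≠ z1) (ha0 : a ≠ z0)
    (ha1 : a ≠ z1) (hb0 : b ≠ z0) (hb1 : b ≠ z1) (hab : a ≠ b) :
    ((if x = z0 then 0 else if x = z1 then 1 else if x = a then 2 else if x = b then 3 else 4 :
      Fin 5) = 0 ↔ x = z0) ∧
    ((if x = z0 then 0 else if x = z1 then 1 else if x = a then 2 else if x = b then 3 else 4 :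
      Fin 5) = 1 ↔ x = z1) ∧
    ((if x = z0 then 0 else if x = z1 then 1 else if x = a then 2 else if x = b then 3 else 4 :
      Fin 5) = 2 ↔ x = a) ∧
    ((if x = z0 then 0 else if x = z1 then 1 else if x = a then 2 else if x = b then 3 else 4 :
      Fin 5) = 3 ↔ x = b) := by
  by_cases h0 : x = z0
  · subst h0
    simp [hz, ha0.symm, hb0.symm]
  · by_cases h1 : x = z1
    · subst h1
      simp [h0, ha1.symm, hb1.symm]
    · by_cases h2 : x = a
      · subst h2
        simp [h0, h1, hab]
      · by_cases h3 : x = b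
        · subst h3
          simp [h0, h1, h2]
        · simp [h0, h1, h2, h3]

theorem main (K : ℕ) (α : ℝ) (hα : ((20 : ℕ) : ℝ) / (21 : ℕ) < α)
    (A : Fin (11 + K) → Fin (4 + K)) (hA : IsGMMS α (fun i g => (W K i g : ℝ)) A) : False := by
  classical
  set H : Finset (Fin (4 + K)) := univ.image fun t : Fin K => A (Fin.natAdd 11 t) with hH
  have hN : ∀ i, i ∉ H → ∀ t, A (Fin.natAdd 11 t) ≠ i := fun i hi t e =>
    hi (mem_image.2 ⟨t, mem_univ _, e⟩)
  have hown : ∀ i, i ∉ H → (∑ g, if A g = i then W K i g else 0) =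
      ∑ c : Fin 11, if A (Fin.castAdd K c) = i then W K i (Fin.castAdd K c) else 0 := by
    intro i hi
    rw [Fin.sum_univ_add]
    simp [hN i hi]
  let z0 : Fin (4 + K) := ⟨0, by omega⟩
  let z1 : Fin (4 + K) := ⟨1, by omega⟩
  have hz : z0 ≠ z1 := by simp [z0, z1]
  have hHc : H.card ≤ K := card_image_le.trans (by simp)
  have hNc : (Hᶜ).card = 4 + K - H.card := by rw [card_compl]; simp
  have h2 : 1 < (Hᶜ \ {z0, z1}).card := by
    have := le_card_sdiff ({z0, z1} : Finset _) (Hᶜ)
    rw [card_pair hz] at this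
    omega
  have hWA : ∀ a : Fin (4 + K), a ≠ z0 → a ≠ z1 → ∀ g, W K a g = av g := by
    intro a h0 h1 g
    have : ¬ a.val < 2 := by
      intro h
      have : a.val = 0 ∨ a.val = 1 := by omega
      rcases this with e | e
      · exact h0 (Fin.ext e)
      · exact h1 (Fin.ext e)
    simp [W, this]
  have hW0 : ∀ g, W K z0 g = bv g := fun g => by simp [W, z0]
  have hW1 : ∀ g, W K z1 g = bv g := fun g => by simp [W, z1]
  obtain ⟨a, b, ha, ha0, ha1, hb, hb0, hb1, hab, hx⟩ : ∃ a b : Fin (4 + K), a ∉ H ∧ a ≠ z0 ∧ a ≠ z1 ∧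
      b ∉ H ∧ b ≠ z0 ∧ b ≠ z1 ∧ a ≠ b ∧ (∑ g, if A g = a then W K a g else 0) ≤ 42 := by
    obtain ⟨a, ha, b, hb, hab⟩ := one_lt_card.1 h2
    simp only [mem_sdiff, mem_compl, mem_insert, mem_singleton, not_or] at ha hb
    have : (∑ g, if A g = a then W K a g else 0) + (∑ g, if A g = b then W K b g else 0) ≤ 84 := by
      rw [hown a ha.1, hown b hb.1, ← sum_add_distrib, ← av_tot]
      refine sum_le_sum fun c _ => ?_
      rw [hWA a ha.2.1 ha.2.2, hWA b hb.2.1 hb.2.2]
      by_cases e : A (Fin.castAdd K c) = a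
      · simp [e, hab]
      · by_cases e' : A (Fin.castAdd K c) = b <;> simp [e, e', hab.symm]
    by_cases h : (∑ g, if A g = a then W K a g else 0) ≤ 42
    · exact ⟨a, b, ha.1, ha.2.1, ha.2.2, hb.1, hb.2.1, hb.2.2, hab, h⟩
    · exact ⟨b, a, hb.1, hb.2.1, hb.2.2, ha.1, ha.2.1, ha.2.2, hab.symm, by omega⟩
  have tiny : ∀ t g, A g = A (Fin.natAdd 11 t) → g ≠ Fin.natAdd 11 t → av g ≤ 2 := by
    intro t g e hg
    have h1 := av_pos g
    have hbg := av_big ((Fin.natAdd 11 t : Fin (11 + K)) : ℕ) (by simp)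
    have := pair (W K) A α 20 21 (by norm_num) hα hA a (Fin.natAdd 11 t) g hg e (hN a ha t)
      (min 100 (av g + ∑ g, if A g = a then W K a g else 0)) (by omega)
      (by rw [hWA a ha0 ha1 (Fin.natAdd 11 t), hbg]; exact min_le_left _ _)
      (by rw [hWA a ha0 ha1 g]; exact min_le_right _ _)
    omega
  have hHK : H.card = K := by
    rw [hH, card_image_of_injective _ (fun s t e => by
      by_contra hst
      have := tiny t _ e (by simpa using hst)
      rw [av_big _ (by simp)] at this
      omega)]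
    simp
  have hN4 : (Hᶜ).card = 4 := by omega
  have hcore : ∀ c : Fin 11, c.val < 9 → A (Fin.castAdd K c) ∈ Hᶜ := by
    intro c hc
    rw [mem_compl]
    intro h
    obtain ⟨t, -, e⟩ := mem_image.1 h
    have h1 := tiny t _ e.symm (fun e2 => by
      have := congrArg Fin.val e2
      simp at this
      omega)
    have h2 := (av3 c hc).1
    simp only [Fin.val_castAdd] at h1
    omega
  have hB : ∀ z : Fin (4 + K), (∀ g, W K z g = bv g) → z ∉ H := by
    intro z hW h
    obtain ⟨c, hc, d, hd, hcd, e'⟩ := exists_ne_map_eq_of_card_lt_of_maps_to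
      (s := univ.filter fun c : Fin 11 => c.val < 9) (t := Hᶜ)
      (by rw [hN4]; decide) (f := fun c : Fin 11 => A (Fin.castAdd K c))
      (fun c hc => hcore c (by simpa using hc))
    have hc : c.val < 9 := by simpa using hc
    have hd : d.val < 9 := by simpa using hd
    have h0 : (∑ g, if A g = z then W K z g else 0) ≤ 2 := by
      rw [Fin.sum_univ_add, ← bv2]
      have e0 : (∑ t : Fin K, if A (Fin.natAdd 11 t) = z then W K z (Fin.natAdd 11 t) else 0) = 0 :=
        sum_eq_zero fun t _ => by rw [hW, bv_big _ (by simp)]; simp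
      rw [e0, add_zero]
      refine sum_le_sum fun x _ => ?_
      by_cases hx9 : x.val < 9
      · have : A (Fin.castAdd K x) ≠ z := fun e2 => (mem_compl.1 (hcore x hx9)) (e2 ▸ h)
        simp [this]
      · rw [if_neg hx9, hW]
        split_ifs <;> simp
    have := pair (W K) A α 20 21 (by norm_num) hα hA z (Fin.castAdd K d) (Fin.castAdd K c)
      (by simpa using hcd) e' (fun e2 => (mem_compl.1 (hcore d hd)) (e2 ▸ h)) 5 (by norm_num)
      (by rw [hW]; exact (av3 d hd).2)
      (by rw [hW]; have := (av3 c hc).2; simp only [Fin.val_castAdd]; omega)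
    omega
  have hS : ({z0, z1, a, b} : Finset _) = Hᶜ := by
    refine eq_of_subset_of_card_le ?_ ?_
    · intro x hx
      simp only [mem_insert, mem_singleton] at hx
      rw [mem_compl]
      rcases hx with rfl | rfl | rfl | rfl
      exacts [hB _ hW0, hB _ hW1, ha, hb]
    · rw [hN4, card_insert_of_notMem (by simp [hz, ha0.symm, hb0.symm]),
        card_insert_of_notMem (by simp [ha1.symm, hb1.symm]), card_pair hab]
  have huge : ∀ (z : Fin (4 + K)) (S : Finset (Fin (4 + K))) (k : ℕ) (Q : Fin K → Fin k) (t : Fin K),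
      (∀ g, W K z g = av g) → A (Fin.natAdd 11 t) ∈ S →
      100 ≤ ∑ s : Fin K, if A (Fin.natAdd 11 s) ∈ S ∧ Q s = Q t then W K z (Fin.natAdd 11 s)
        else 0 := by
    intro z S k Q t hW hS
    refine le_trans (le_of_eq ?_) (single_le_sum (f := fun s : Fin K =>
      if A (Fin.natAdd 11 s) ∈ S ∧ Q s = Q t then W K z (Fin.natAdd 11 s) else 0)
      (fun _ _ => Nat.zero_le _) (mem_univ t))
    simp only [hS, true_and, if_true, hW]
    rw [av_big _ (by simp)]
  have bigA : ∀ z : Fin (4 + K), z ∉ H → (∀ g, W K z g = av g) →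
      21 ≤ ∑ c : Fin 11, if A (Fin.castAdd K c) = z then av c else 0 := by
    intro z hzH hW
    have := key (W K) A α 20 21 (by norm_num) hα hA z univ (mem_univ _) (4 + K) (by simp)
      (Fin.addCases (fun c => Fin.castAdd K (pA c)) fun t => Fin.natAdd 4 t) 21 (by norm_num)
      fun j => by
        rw [Fin.sum_univ_add]
        simp only [Fin.addCases_left, Fin.addCases_right]
        refine Fin.addCases (fun j => ?_) (fun t => ?_) j
        · refine (pA_ok j).trans (le_trans (le_of_eq ?_) (Nat.le_add_right _ _))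
          refine sum_congr rfl fun c _ => ?_
          simp [hW]
        · have := huge z univ (4 + K) (fun t => Fin.natAdd 4 t) t hW (mem_univ _)
          omega
    rw [hown z hzH] at this
    simp only [hW, Fin.val_castAdd] at this
    omega
  have bigB : ∀ z : Fin (4 + K), (∀ g, W K z g = bv g) → ∀ (Q : Fin 11 → Prop) [DecidablePred Q]
      (c0 : ℕ), 0 < c0 → c0 ≤ 21 → (∀ c, Q c → A (Fin.castAdd K c) ∈ Hᶜ) →
      (∀ j, c0 ≤ ∑ c : Fin 11, if Q c ∧ pB c = j then bv c else 0) →
      c0 ≤ ∑ c : Fin 11, if A (Fin.castAdd K c) = z then bv c else 0 := by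
    intro z hW Q _ c0 hc0 hc1 hQ hP
    have := key (W K) A α 20 21 (by norm_num) hα hA z (Hᶜ) (mem_compl.2 (hB z hW)) 4 hN4
      (Fin.addCases pB fun _ => 0) c0 hc0 fun j => by
        rw [Fin.sum_univ_add]
        refine (hP j).trans (le_trans ?_ (Nat.le_add_right _ _))
        refine sum_le_sum fun c _ => ?_
        simp only [Fin.addCases_left, hW, Fin.val_castAdd]
        by_cases h : Q c ∧ pB c = j
        · rw [if_pos h, if_pos ⟨hQ c h.1, h.2⟩]
        · rw [if_neg h]; exact Nat.zero_le _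
    rw [hown z (hB z hW)] at this
    simp only [hW, Fin.val_castAdd] at this
    omega
  have a21 := bigA a ha (hWA a ha0 ha1)
  have b21 := bigA b hb (hWA b hb0 hb1)
  by_cases h9 : A (Fin.castAdd K 9) ∈ Hᶜ ∧ A (Fin.castAdd K 10) ∈ Hᶜ
  · have hall : ∀ c : Fin 11, True → A (Fin.castAdd K c) ∈ Hᶜ := fun c _ => by
      rcases c3 c with h | rfl | rfl
      exacts [hcore c h, h9.1, h9.2]
    let lab : Fin (4 + K) → Fin 4 := fun x => if x = z0 then 0 else if x = z1 then 1 else
      if x = a then 2 else 3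
    have l0 : lab z0 = 0 := by simp [lab]
    have l1 : lab z1 = 1 := by simp [lab, hz.symm]
    have l2 : lab a = 2 := by simp [lab, ha0, ha1]
    have l3 : lab b = 3 := by simp [lab, hb0, hb1, hab.symm]
    have mono : ∀ (z : Fin (4 + K)) (j : Fin 4) (u : ℕ → ℕ), lab z = j →
        (∑ c : Fin 11, if A (Fin.castAdd K c) = z then u c else 0) ≤
        ∑ c : Fin 11, if lab (A (Fin.castAdd K c)) = j then u c else 0 := by
      intro z j u e
      refine sum_le_sum fun c _ => ?_
      by_cases h : A (Fin.castAdd K c) = z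
      · simp [h, e]
      · simp [h]
    exact core (fun c => lab (A (Fin.castAdd K c)))
      ((bigB z0 hW0 _ 21 (by norm_num) le_rfl hall pB21).trans (mono _ _ _ l0))
      ((bigB z1 hW1 _ 21 (by norm_num) le_rfl hall pB21).trans (mono _ _ _ l1))
      (a21.trans (mono _ _ _ l2)) (b21.trans (mono _ _ _ l3))
  by_cases h10 : A (Fin.castAdd K 9) ∈ H ∧ A (Fin.castAdd K 10) ∈ H
  · have z19 := bigB z0 hW0 _ 19 (by norm_num) (by norm_num) hcore pB19
    have tot : (∑ c : Fin 11, if A (Fin.castAdd K c) = z0 then bv c else 0) +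
        (∑ c : Fin 11, if A (Fin.castAdd K c) = a then av c else 0) +
        (∑ c : Fin 11, if A (Fin.castAdd K c) = b then av c else 0) ≤ 89 := by
      rw [← sum_add_distrib, ← sum_add_distrib, ← mx_tot]
      refine sum_le_sum fun c _ => ?_
      by_cases e : A (Fin.castAdd K c) = z0
      · simp [e, ha0.symm, hb0.symm]
      · by_cases e1 : A (Fin.castAdd K c) = a
        · simp [e1, ha0, hab]
        · by_cases e2 : A (Fin.castAdd K c) = b
          · simp [e2, hb0, hab.symm]
          · simp [e, e1, e2]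
    have ab : ∀ z : Fin (4 + K), z ∉ H → (∀ g, W K z g = av g) →
        (∑ c : Fin 11, if A (Fin.castAdd K c) = z then av c else 0) ≤ 89 →
        41 ≤ ∑ c : Fin 11, if A (Fin.castAdd K c) = z then av c else 0 := by
      intro z hzH hW h89
      have := key (W K) A α 20 21 (by norm_num) hα hA z (insert z H) (mem_insert_self _ _) (K + 1)
        (by rw [card_insert_of_notMem hzH, hHK])
        (Fin.addCases (fun _ => 0) fun t => Fin.succ t)
        ((∑ c : Fin 11, if A (Fin.castAdd K c) = z then av c else 0) + 2) (by omega)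
        fun j => by
          rw [Fin.sum_univ_add]
          simp only [Fin.addCases_left, Fin.addCases_right]
          refine Fin.cases ?_ (fun t => ?_) j
          · refine le_trans ?_ (Nat.le_add_right _ _)
            rw [← two, ← sum_add_distrib]
            refine sum_le_sum fun c _ => ?_
            rw [hW]
            simp only [Fin.val_castAdd]
            by_cases e : A (Fin.castAdd K c) = z
            · have hc : c.val < 9 := by
                rcases c3 c with h | rfl | rfl
                · exact h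
                · exact absurd (e ▸ h10.1) hzH
                · exact absurd (e ▸ h10.2) hzH
              simp [e, hc]
            · rcases c3 c with h | rfl | rfl
              · simp [e, h]
              · simp [e, h10.1]
              · simp [e, h10.2]
          · have := huge z (insert z H) (K + 1) (fun t => Fin.succ t) t hW
              (mem_insert_of_mem (mem_image.2 ⟨t, mem_univ _, rfl⟩))
            omega
      rw [hown z hzH] at this
      simp only [hW, Fin.val_castAdd] at this
      omega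
    have := ab a ha (hWA a ha0 ha1) (by omega)
    have := ab b hb (hWA b hb0 hb1) (by omega)
    omega
  have b20 : ∀ z : Fin (4 + K), (∀ g, W K z g = bv g) →
      20 ≤ ∑ c : Fin 11, if A (Fin.castAdd K c) = z then bv c else 0 := by
    intro z hW
    by_cases h : A (Fin.castAdd K 9) ∈ H
    · refine bigB z hW _ 20 (by norm_num) (by norm_num) (fun c hc => ?_) pB9
      rcases c3 c with h' | rfl | rfl
      · exact hcore c h'
      · exact absurd rfl hc
      · exact mem_compl.2 fun h' => h10 ⟨h, h'⟩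
    · refine bigB z hW _ 20 (by norm_num) (by norm_num) (fun c hc => ?_) pB10
      rcases c3 c with h' | rfl | rfl
      · exact hcore c h'
      · exact mem_compl.2 h
      · exact absurd rfl hc
  let lab : Fin (4 + K) → Fin 5 := fun x => if x = z0 then 0 else if x = z1 then 1 else
    if x = a then 2 else if x = b then 3 else 4
  have l0 : ∀ x, lab x = 0 ↔ x = z0 := fun x => (labs z0 z1 a b x hz ha0 ha1 hb0 hb1 hab).1
  have l1 : ∀ x, lab x = 1 ↔ x = z1 := fun x => (labs z0 z1 a b x hz ha0 ha1 hb0 hb1 hab).2.1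
  have l2 : ∀ x, lab x = 2 ↔ x = a := fun x => (labs z0 z1 a b x hz ha0 ha1 hb0 hb1 hab).2.2.1
  have l3 : ∀ x, lab x = 3 ↔ x = b := fun x => (labs z0 z1 a b x hz ha0 ha1 hb0 hb1 hab).2.2.2
  have l4 : ∀ x, x ∉ Hᶜ → lab x = 4 := fun x hx => by
    rw [← hS] at hx
    simp only [mem_insert, mem_singleton, not_or] at hx
    simp [lab, hx.1, hx.2.1, hx.2.2.1, hx.2.2.2]
  have ct : ∀ (u : ℕ → ℕ) (i j : Fin 5) (z y : Fin (4 + K)) (P : Fin 11 → Fin 2) (c0 : ℕ),
      (∀ x, lab x = i ↔ x = z) → (∀ x, lab x = j ↔ x = y) → z ≠ y → z ∉ H → (∀ g, W K z g = u g) →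
      0 < c0 → F5.cut u (fun c => lab (A (Fin.castAdd K c))) i j P c0 := by
    intro u i j z y P c0 hi hj hzy hzH hW hc0 h
    have := key (W K) A α 20 21 (by norm_num) hα hA z {z, y} (by simp) 2 (card_pair hzy)
      (Fin.addCases P fun _ => 0) c0 hc0 fun t => by
        rw [Fin.sum_univ_add]
        refine (h t).trans (le_trans (le_of_eq ?_) (Nat.le_add_right _ _))
        refine sum_congr rfl fun c _ => ?_
        simp only [hi, hj, Fin.addCases_left, hW, Fin.val_castAdd, mem_insert, mem_singleton]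
    rw [hown z hzH] at this
    simp only [hW, Fin.val_castAdd] at this
    simpa only [F5.own, hi] using this
  have n21 : 0 < 21 := by norm_num
  have n24 : 0 < 24 := by norm_num
  refine F5.core (fun c => lab (A (Fin.castAdd K c))) ?_ ?_ ?_ ?_ ?_
    ⟨ct _ _ _ a b _ _ l2 l3 hab ha (hWA a ha0 ha1) n24,
     ct _ _ _ b a _ _ l3 l2 hab.symm hb (hWA b hb0 hb1) n24,
     ct _ _ _ z0 a _ _ l0 l2 ha0.symm (hB _ hW0) hW0 n21,
     ct _ _ _ z0 b _ _ l0 l3 hb0.symm (hB _ hW0) hW0 n21,
     ct _ _ _ z1 a _ _ l1 l2 ha1.symm (hB _ hW1) hW1 n21,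
     ct _ _ _ z1 b _ _ l1 l3 hb1.symm (hB _ hW1) hW1 n21,
     ct _ _ _ z0 a _ _ l0 l2 ha0.symm (hB _ hW0) hW0 n21,
     ct _ _ _ z0 b _ _ l0 l3 hb0.symm (hB _ hW0) hW0 n21,
     ct _ _ _ z1 a _ _ l1 l2 ha1.symm (hB _ hW1) hW1 n21,
     ct _ _ _ z1 b _ _ l1 l3 hb1.symm (hB _ hW1) hW1 n21⟩
  · rcases not_and_or.1 h9 with h | h
    exacts [Or.inl (l4 _ h), Or.inr (l4 _ h)]
  · simpa only [F5.own, l0] using b20 z0 hW0
  · simpa only [F5.own, l1] using b20 z1 hW1
  · simpa only [F5.own, l2] using a21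
  · simpa only [F5.own, l3] using b21

end Pool.Agent.FS.EveryN
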